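import Pool.Agent.U62.SH.Loc
import Pool.Agent.X280.HG.Gauss
import Pool.Agent.X280.HG.Main
import Pool.Agent.N534.XH.Good
import Pool.Agent.Y722.HS.Avg

/-!
# The normal law for polynomials in the traces of Frobenius, any dimension `n ≥ 1`, good primes only
-/

set_option autoImplicit false
set_option linter.unusedSectionVars false

namespace Pool.Agent.U62.SH

open Finset hiding val
open Polynomial Filter Topology Pool.Agent.Y722.HS Pool.Agent.X280.BP Pool.Agent.X280.UC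
  Pool.Agent.X280.HG Pool.Agent.N534.XH MeasureTheory ProbabilityTheory

/-- The odd coefficients of an even polynomial vanish. -/
theorem coeff_odd {ψ : ℝ[X]} (h : ∀ x, ψ.eval (-x) = ψ.eval x) (k : ℕ) (hk : Odd k) :
    ψ.coeff k = 0 := by
  have h1 : ψ.comp (C (-1) * X) = ψ := by
    refine Polynomial.funext fun x => ?_
    rw [eval_comp, eval_mul, eval_C, eval_X, neg_one_mul, h]
  have h2 := congrArg (fun q : ℝ[X] => q.coeff k) h1
  simp only [comp_C_mul_X_coeff, hk.neg_one_pow] at h2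
  linarith

theorem GM_neg (φ : ℝ[X]) : GM (φ.comp (-X)) = GM φ := by
  have e : (-X : ℝ[X]) = C (-1) * X := by rw [C_neg, C_1, neg_one_mul]
  have hd : (φ.comp (-X)).natDegree = φ.natDegree := by
    rw [natDegree_comp]
    have : (-X : ℝ[X]).natDegree = 1 := by rw [natDegree_neg, natDegree_X]
    rw [this, mul_one]
  rw [GM_eq, GM_eq, hd]
  refine Finset.sum_congr rfl fun k _ => ?_
  rw [e, comp_C_mul_X_coeff]
  rcases Nat.even_or_odd k with hk | hk
  · rw [hk.neg_one_pow, mul_one]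
  · obtain ⟨a, ha⟩ := hk
    rw [ha, gm_odd, mul_zero, mul_zero]

/-- The mean value of a polynomial in the trace over all forms modulo `p`. -/
theorem EM_polyn (ψ : ℝ[X]) : ∃ C : ℝ, 0 ≤ C ∧ ∀ (n d : ℕ), 1 ≤ n → ψ.natDegree ≤ d + 1 →
    (2 ≤ n ∨ ∀ k, Odd k → ψ.coeff k = 0) → ∀ p : ℕ, ∀ [Fact p.Prime],
    |EM p (fun c : Mon (n + 1) d → ZMod p => ψ.eval (tn n d p c)) - GM ψ| ≤ C / p := by
  choose C hC0 hC using EM_tn
  refine ⟨∑ k ∈ range (ψ.natDegree + 1), |ψ.coeff k| * C k,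
    Finset.sum_nonneg fun k _ => mul_nonneg (abs_nonneg _) (hC0 k), fun n d hn hd hor p hpf => ?_⟩
  have e : (fun c : Mon (n + 1) d → ZMod p => ψ.eval (tn n d p c)) = fun c =>
      ∑ k ∈ range (ψ.natDegree + 1), ψ.coeff k * tn n d p c ^ k := by
    funext c
    exact eval_eq_sum_range _
  rw [e, EM_sum', GM_eq, ← Finset.sum_sub_distrib, Finset.sum_div]
  refine (Finset.abs_sum_le_sum_abs _ _).trans (Finset.sum_le_sum fun k hk => ?_)
  rw [Finset.mem_range] at hk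
  rw [EM_mul', ← mul_sub, abs_mul, mul_div_assoc]
  rcases Nat.even_or_odd k with hk2 | hk2
  · exact mul_le_mul_of_nonneg_left (hC k n d hn (by omega) p (Or.inr hk2)) (abs_nonneg _)
  · rcases hor with h2 | h2
    · exact mul_le_mul_of_nonneg_left (hC k n d hn (by omega) p (Or.inl h2)) (abs_nonneg _)
    · rw [h2 k hk2, abs_zero, zero_mul, zero_mul]

/-- The local data. -/
theorem ld_polyn (φ : ℝ[X]) : ∃ C : ℝ, ∀ (n d : ℕ), 1 ≤ n → 4 * φ.natDegree ≤ d + 1 →
    (2 ≤ n ∨ ∀ x, φ.eval (-x) = φ.eval x) →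
    LD (fun p (c : Mon (n + 1) d → ZMod p) => φ.eval (tn n d p c)) (GM φ) (GM (φ ^ 2)) C := by
  obtain ⟨C1, h10, h1⟩ := EM_polyn φ
  obtain ⟨C2, h20, h2⟩ := EM_polyn (φ ^ 2)
  obtain ⟨C4, h40, h4⟩ := EM_polyn (φ ^ 4)
  refine ⟨C1 + C2 + C4 + |GM (φ ^ 4)|, fun n d hn hd hor => ?_⟩
  have d2 : (φ ^ 2).natDegree ≤ d + 1 := by
    rw [natDegree_pow]; omega
  have d4 : (φ ^ 4).natDegree ≤ d + 1 := by
    rw [natDegree_pow]; exact hd
  have ev : ∀ j : ℕ, (2 ≤ n ∨ ∀ k, Odd k → (φ ^ j).coeff k = 0) := by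
    intro j
    refine hor.imp id fun h => coeff_odd fun x => ?_
    rw [eval_pow, eval_pow, h]
  have ev1 := ev 1
  rw [pow_one] at ev1
  have hle : ∀ p : ℕ, p.Prime → ∀ c : ℝ, c ≤ C1 + C2 + C4 + |GM (φ ^ 4)| →
      c / p ≤ (C1 + C2 + C4 + |GM (φ ^ 4)|) / p := by
    intro p hp c hc
    have : (0 : ℝ) < p := by exact_mod_cast hp.pos
    gcongr
  have ha := abs_nonneg (GM (φ ^ 4))
  refine ⟨by positivity, fun p hp _ => ?_, fun p hp _ => ?_, fun p hp _ => ?_⟩
  · have : Fact p.Prime := ⟨hp⟩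
    exact (h1 n d hn (by omega) ev1 p).trans (hle p hp _ (by linarith))
  · have : Fact p.Prime := ⟨hp⟩
    have h := (h2 n d hn d2 (ev 2) p).trans (hle p hp _ (by linarith))
    simp only [eval_pow] at h
    exact h
  · have : Fact p.Prime := ⟨hp⟩
    have h := h4 n d hn d4 (ev 4) p
    simp only [eval_pow] at h
    have h5 := (abs_le.mp h).2
    have hp1 : (1 : ℝ) ≤ p := by exact_mod_cast hp.one_lt.le
    have h6 : C4 / p ≤ C4 := div_le_self h40 hp1
    have h7 := le_abs_self (GM (φ ^ 4))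
    linarith

/-- smoothness over an algebraic closure -/
def SmoothForm {n : ℕ} {K : Type} [Field K] (F : MvPolynomial (Fin (n + 1)) K) : Prop :=
  ∀ x : Fin (n + 1) → K, x ≠ 0 → MvPolynomial.eval x F = 0 →
    ∃ i, MvPolynomial.eval x (MvPolynomial.pderiv i F) ≠ 0

/-- the good residues -/
def GR (n d : ℕ) (p : ℕ) (c : Mon (n + 1) d → ZMod p) : Prop :=
  ∃ h : p.Prime, haveI : Fact p.Prime := ⟨h⟩
    SmoothForm (form fun μ => algebraMap (ZMod p) (AlgebraicClosure (ZMod p)) (c μ))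

theorem EM_GR (n d : ℕ) (hd : 1 ≤ d) (p : ℕ) (hp : p.Prime) [NeZero p] :
    EM p (ib (GR n d) p) ≤ DD (n + 1) d / p := by
  classical
  have : Fact p.Prime := ⟨hp⟩
  refine le_trans ?_ (EM_bd (n + 1) d p hd)
  refine EM_mono' p _ _ fun c => ?_
  by_cases hG : GR n d p c
  · unfold ib
    rw [if_pos hG]
    exact bd_nonneg p _
  · unfold ib
    rw [if_neg hG]
    have hb : IsBad p c := by
      by_contra hno
      refine hG ⟨hp, ?_⟩
      have h2 := isSmooth_of_not_isBad p hd _ hno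
      have e : MvPolynomial.map (algebraMap (ZMod p) (AlgebraicClosure (ZMod p)))
          (form fun μ => c μ) =
          form (fun μ => algebraMap (ZMod p) (AlgebraicClosure (ZMod p)) (c μ)) := by
        unfold Pool.Agent.Y722.HS.form
        simp [map_sum, map_prod]
      rw [e] at h2
      exact h2
    unfold bd
    rw [if_pos hb]

open Classical in
/-- **The normal law, good primes only.** `σ = ±1` is the sign of the trace. -/
theorem law_good (φ : ℝ[X]) (hφ : 1 ≤ φ.natDegree) (n d : ℕ) (hn : 1 ≤ n)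
    (hd : 4 * φ.natDegree ≤ d + 1) (hor : 2 ≤ n ∨ ∀ x, φ.eval (-x) = φ.eval x)
    (δ : ℝ) (hδ : 0 < δ) (u ε : ℝ) (hε : 0 < ε) :
    ∃ K : ℕ, ∀ (P : Finset ℕ) (w : ℕ → ℝ) (y H : ℕ), (∀ p ∈ P, p.Prime ∧ p ≤ y) →
      (∀ p ∈ P, |w p| ≤ 1) → δ * P.card ≤ ∑ p ∈ P, w p ^ 2 → K ≤ P.card → y ^ K ≤ H →
      |({c : Mon (n + 1) d → ℤ | (∀ μ, |c μ| ≤ H) ∧
        ∑ p ∈ P.filter (fun p => GR n d p (red p c)), w p * (φ.eval (tn n d p (red p c)) - GM φ) ≤
          u * √((GM (φ ^ 2) - GM φ ^ 2) * ∑ p ∈ P, w p ^ 2)}.ncard : ℝ) /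
        (2 * H + 1 : ℝ) ^ Fintype.card (Mon (n + 1) d) -
          (gaussianReal 0 1).real (Set.Iic u)| ≤ ε := by
  obtain ⟨C, hC⟩ := ld_polyn φ
  have hv := GM_var φ hφ
  obtain ⟨K, hK⟩ := good_law (hC n d hn hd hor) hv (GR n d)
    (fun p hp _ => EM_GR n d (by omega) p hp) (GM φ) hδ u hε
  refine ⟨K, fun P w y H hP hw hvar hcard hH => ?_⟩
  have h1 := hK P w y H hP hw hvar hcard hH
  refine le_trans (le_of_eq ?_) h1
  congr 3
  congr 2
  ext c
  simp only [Set.mem_ofPred_eq]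
  refine and_congr_right fun _ => ?_
  have e1 : ∑ p ∈ P, w p * (if GR n d p (red p c) then φ.eval (tn n d p (red p c)) else GM φ) =
      ∑ p ∈ P.filter (fun p => GR n d p (red p c)), w p * (φ.eval (tn n d p (red p c)) - GM φ) +
        GM φ * ∑ p ∈ P, w p := by
    rw [Finset.sum_filter, Finset.mul_sum, ← Finset.sum_add_distrib]
    refine Finset.sum_congr rfl fun p _ => ?_
    split_ifs <;> ring
  rw [e1]
  constructor <;> intro h <;> linarith

end Pool.Agent.U62.SH
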