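import Pool.Agent.X280.HG.Local

/-!
# The moments of the traces of Frobenius of hypersurfaces of any dimension `n ≥ 1`
-/

set_option autoImplicit false
set_option linter.unusedSectionVars false

namespace Pool.Agent.U62.SH

open Finset hiding val
open Pool.Agent.Y722.HS Pool.Agent.X280.BP Pool.Agent.X280.UC Pool.Agent.X280.HG

/-- The number of points of a hypersurface of dimension `n` minus the number of points of `ℙ^n`, divided
by `p^{n/2}`. -/
noncomputable def tn (n d p : ℕ) (c : Mon (n + 1) d → ZMod p) : ℝ :=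
  ((cone c : ℝ) / (p - 1) - ∑ i ∈ range (n + 1), (p : ℝ) ^ i) / √(p : ℝ) ^ n

section
variable {p : ℕ} [hp : Fact p.Prime] {n d : ℕ}

theorem tn_eq (c : Mon (n + 1) d → ZMod p) :
    tn n d p c = SF univ c / √(p : ℝ) ^ n + 1 / (p * √(p : ℝ) ^ n) := by
  classical
  have hp0 : (0 : ℝ) < p := p_pos'
  have hs0 : 0 < √(p : ℝ) := Real.sqrt_pos.2 hp0
  have h1 : SF (univ : Finset (PS p (n + 1))) c = (cone c : ℝ) / (p - 1) -
      (∑ i ∈ range (n + 1 + 1), (p : ℝ) ^ i) / p := by
    rw [cone_div, ← card_PS]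
    unfold SF zi
    rw [Finset.sum_sub_distrib, Finset.sum_const, Finset.card_univ, nsmul_eq_mul]
    ring
  have h2 : (∑ i ∈ range (n + 1 + 1), (p : ℝ) ^ i) / p =
      ∑ i ∈ range (n + 1), (p : ℝ) ^ i + 1 / p := by
    rw [Finset.sum_range_succ', pow_zero, add_div]
    congr 1
    rw [Finset.sum_div]
    refine Finset.sum_congr rfl fun i _ => ?_
    rw [pow_succ]
    field_simp
  unfold tn
  rw [h1, h2]
  generalize √(p : ℝ) ^ n = S
  by_cases hS : S = 0
  · rw [hS]; simp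
  · field_simp
    ring

end

/-- The moments of the main part. -/
theorem EM_sn (j : ℕ) : ∃ C : ℝ, 0 ≤ C ∧ ∀ (n d : ℕ), 1 ≤ n → j ≤ d + 1 → ∀ p : ℕ, ∀ [Fact p.Prime],
    |EM p (fun c : Mon (n + 1) d → ZMod p => (SF univ c / √(p : ℝ) ^ n) ^ j) - gm j| ≤ C ∧
    ((2 ≤ n ∨ Even j) →
      |EM p (fun c : Mon (n + 1) d → ZMod p => (SF univ c / √(p : ℝ) ^ n) ^ j) - gm j| ≤ C / p) := by
  obtain ⟨C, hC0, hC⟩ := exists_asy j
  refine ⟨C + |gm j| * j, by positivity, fun n d hn hj p hpf => ?_⟩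
  have hp1 : (1 : ℝ) < p := by exact_mod_cast hpf.out.one_lt
  have hp0 : (0 : ℝ) < p := by linarith
  have hs1 : 1 ≤ √(p : ℝ) := by
    rw [Real.one_le_sqrt]; exact hp1.le
  have hss : √(p : ℝ) * √(p : ℝ) = p := Real.mul_self_sqrt hp0.le
  set G : ℕ := (univ : Finset (PS p (n + 1))).card with hG
  have hGc : (G : ℝ) = ∑ i ∈ range (n + 1 + 1), (p : ℝ) ^ i := by
    rw [hG, Finset.card_univ, card_PS]
  have hGp : (G : ℝ) * (p - 1) = (p : ℝ) ^ (n + 2) - 1 := by
    rw [hGc, geom_sum_mul]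
  set R : ℝ := (p : ℝ) ^ n with hR
  have hR0 : 0 < R := by positivity
  have hR1 : 1 ≤ R := one_le_pow₀ hp1.le
  set S : ℝ := √(p : ℝ) ^ n with hS
  have hS1 : 1 ≤ S := one_le_pow₀ hs1
  have hS0 : 0 < S := by linarith
  have hRm : R = S * S := by rw [hR, hS, ← mul_pow, hss]
  have hpS : 2 ≤ n → (p : ℝ) ≤ S := by
    intro h2
    calc (p : ℝ) = √(p : ℝ) ^ 2 := by rw [pow_two, hss]
      _ ≤ _ := pow_le_pow_right₀ hs1 h2
  have hpR : (p : ℝ) ≤ R := by
    calc (p : ℝ) = (p : ℝ) ^ 1 := (pow_one _).symm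
      _ ≤ _ := pow_le_pow_right₀ hp1.le hn
  have hGq : (G : ℝ) * ((1 / p) * (1 - 1 / p)) = R - 1 / (p : ℝ) ^ 2 := by
    have e : (G : ℝ) * ((1 / p) * (1 - 1 / p)) = (G * (p - 1)) / (p : ℝ) ^ 2 := by
      field_simp
    rw [e, hGp, hR, pow_add]
    field_simp
  have hGR : (G : ℝ) * ((1 / p) * (1 - 1 / p)) ≤ R := by
    rw [hGq]
    have : (0 : ℝ) ≤ 1 / (p : ℝ) ^ 2 := by positivity
    linarith
  have h1 := hC (ez p) _ adm_ez G R hR1 hGR
  have e1 : EM p (fun c : Mon (n + 1) d → ZMod p => (SF univ c / S) ^ j) =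
      ME (ez p) G j / S ^ j := by
    have e2 : (fun c : Mon (n + 1) d → ZMod p => (SF univ c / S) ^ j) =
        fun c => (1 / S ^ j) * SF univ c ^ j := by
      funext c
      rw [div_pow]; ring
    rw [e2, EM_mul', EM_SF univ j hj]
    ring
  rw [e1]
  set M := ME (ez p) G j with hM
  rcases Nat.even_or_odd j with hj' | hj'
  · suffices key : |M / S ^ j - gm j| ≤ (C + |gm j| * j) / p from
      ⟨key.trans (div_le_self (by positivity) hp1.le), fun _ => key⟩
    obtain ⟨h, rfl⟩ : ∃ h, j = 2 * h := by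
      obtain ⟨a, ha⟩ := hj'
      exact ⟨a, by omega⟩
    rw [if_pos hj', show 2 * h / 2 = h by omega] at h1
    have e3 : S ^ (2 * h) = R ^ h := by
      rw [hRm]; ring
    rw [e3]
    set x : ℝ := (G : ℝ) * ((1 / p) * (1 - 1 / p)) with hx
    have hx0 : 0 ≤ x := by
      have : (0 : ℝ) ≤ 1 - 1 / p := by
        rw [sub_nonneg, div_le_one hp0]; exact hp1.le
      positivity
    have hRh : 0 < R ^ h := by positivity
    have b1 : |M / R ^ h - gm (2 * h) * (x / R) ^ h| ≤ C / p := by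
      have e4 : M / R ^ h - gm (2 * h) * (x / R) ^ h = (M - gm (2 * h) * x ^ h) / R ^ h := by
        rw [div_pow]; field_simp
      rw [e4, abs_div, abs_of_pos hRh, div_le_iff₀ hRh]
      have h5 : |M - gm (2 * h) * x ^ h| * p ≤ C * R ^ h := by
        refine le_trans ?_ h1
        gcongr
      rw [div_mul_eq_mul_div, le_div_iff₀ hp0]
      exact h5
    have b2 : |gm (2 * h) * (x / R) ^ h - gm (2 * h)| ≤ |gm (2 * h)| * (2 * h : ℕ) / p := by
      have e5 : gm (2 * h) * (x / R) ^ h - gm (2 * h) = gm (2 * h) * ((x / R) ^ h - 1) := by ring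
      rw [e5, abs_mul]
      suffices key : |(x / R) ^ h - 1| ≤ ((2 * h : ℕ) : ℝ) / p by
        calc |gm (2 * h)| * |(x / R) ^ h - 1| ≤ |gm (2 * h)| * (((2 * h : ℕ) : ℝ) / p) :=
              mul_le_mul_of_nonneg_left key (abs_nonneg _)
          _ = _ := by ring
      have hxR : x / R ≤ 1 := by rw [div_le_one hR0]; exact hGR
      have hxR0 : 0 ≤ x / R := by positivity
      have h6 : (x / R) ^ h ≤ 1 := pow_le_one₀ hxR0 hxR
      rw [abs_sub_comm, abs_of_nonneg (by linarith)]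
      have h7 := one_add_mul_le_pow (a := x / R - 1) (by linarith) h
      have e6 : 1 + (x / R - 1) = x / R := by ring
      rw [e6] at h7
      have e7 : 1 - x / R = 1 / (R * (p : ℝ) ^ 2) := by
        rw [hGq]
        field_simp
        ring
      have h8 : 1 / (R * (p : ℝ) ^ 2) ≤ 1 / p := by
        apply one_div_le_one_div_of_le hp0
        calc (p : ℝ) ≤ R := hpR
          _ = R * 1 := (mul_one R).symm
          _ ≤ R * (p : ℝ) ^ 2 := mul_le_mul_of_nonneg_left (one_le_pow₀ hp1.le) hR0.le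
      have h9 : (h : ℝ) * (1 - x / R) ≤ h * (1 / p) := by
        rw [e7]
        gcongr
      have h10 : (h : ℝ) * (1 / p) ≤ ((2 * h : ℕ) : ℝ) / p := by
        rw [mul_one_div]
        gcongr
        omega
      linarith
    have e8 : M / R ^ h - gm (2 * h) = (M / R ^ h - gm (2 * h) * (x / R) ^ h) +
        (gm (2 * h) * (x / R) ^ h - gm (2 * h)) := by ring
    rw [e8, add_div]
    exact (abs_add_le _ _).trans (add_le_add b1 b2)
  · obtain ⟨h, rfl⟩ := hj'
    rw [if_neg (Nat.not_even_iff_odd.mpr ⟨h, rfl⟩), show (2 * h + 1) / 2 = h by omega, gm_odd,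
      zero_mul, sub_zero, mul_one] at h1
    rw [gm_odd, sub_zero, abs_zero, zero_mul, add_zero]
    have e3 : S ^ (2 * h + 1) = R ^ h * S := by
      rw [hRm]; ring
    have hpos : 0 < R ^ h * S := by positivity
    rw [e3, abs_div, abs_of_pos hpos]
    constructor
    · rw [div_le_iff₀ hpos]
      calc |M| ≤ C * R ^ h := h1
        _ = C * R ^ h * 1 := (mul_one _).symm
        _ ≤ C * R ^ h * S := by gcongr
        _ = _ := by ring
    · intro hor
      have h2 : 2 ≤ n := by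
        rcases hor with h2 | h2
        · exact h2
        · exact absurd h2 (Nat.not_even_iff_odd.mpr ⟨h, rfl⟩)
      rw [div_le_div_iff₀ hpos hp0]
      have := hpS h2
      calc |M| * p ≤ (C * R ^ h) * S := by gcongr
        _ = _ := by ring

/-- **The moments of the traces.** -/
theorem EM_tn (j : ℕ) : ∃ C : ℝ, 0 ≤ C ∧ ∀ (n d : ℕ), 1 ≤ n → j ≤ d + 1 → ∀ p : ℕ, ∀ [Fact p.Prime],
    (2 ≤ n ∨ Even j) →
    |EM p (fun c : Mon (n + 1) d → ZMod p => tn n d p c ^ j) - gm j| ≤ C / p := by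
  choose C hC0 hC using EM_sn
  refine ⟨C j + ∑ k ∈ range j, (j.choose k : ℝ) * (C k + |gm k|), by
    have : 0 ≤ ∑ k ∈ range j, (j.choose k : ℝ) * (C k + |gm k|) :=
      Finset.sum_nonneg fun k _ => by have := hC0 k; positivity
    have := hC0 j
    positivity, fun n d hn hj p hpf hor => ?_⟩
  have hp1 : (1 : ℝ) < p := by exact_mod_cast hpf.out.one_lt
  have hp0 : (0 : ℝ) < p := by linarith
  have hs1 : 1 ≤ √(p : ℝ) := by
    rw [Real.one_le_sqrt]; exact hp1.le
  have hpm : (1 : ℝ) ≤ √(p : ℝ) ^ n := one_le_pow₀ hs1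
  set δ : ℝ := 1 / (p * √(p : ℝ) ^ n) with hδ
  have hδ0 : 0 ≤ δ := by positivity
  have hδp : δ ≤ 1 / p := by
    rw [hδ]
    apply one_div_le_one_div_of_le hp0
    nlinarith
  have hδ1 : δ ≤ 1 := hδp.trans (by rw [div_le_one hp0]; exact hp1.le)
  set s : (Mon (n + 1) d → ZMod p) → ℝ := fun c => SF univ c / √(p : ℝ) ^ n with hs
  have e1 : EM p (fun c : Mon (n + 1) d → ZMod p => tn n d p c ^ j) =
      EM p (fun c => s c ^ j) + ∑ k ∈ range j, (j.choose k : ℝ) * δ ^ (j - k) *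
        EM p (fun c => s c ^ k) := by
    have e2 : (fun c : Mon (n + 1) d → ZMod p => tn n d p c ^ j) = fun c =>
        s c ^ j + ∑ k ∈ range j, (j.choose k : ℝ) * δ ^ (j - k) * s c ^ k := by
      funext c
      rw [tn_eq, add_pow, Finset.sum_range_succ, Nat.choose_self, Nat.sub_self, pow_zero, mul_one,
        Nat.cast_one, mul_one, add_comm]
      congr 1
      refine Finset.sum_congr rfl fun k _ => ?_
      ring
    rw [e2, EM_add', EM_sum']
    congr 1
    refine Finset.sum_congr rfl fun k _ => ?_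
    rw [EM_mul']
  rw [e1]
  have b1 := (hC j n d hn hj p).2 hor
  have b2 : |∑ k ∈ range j, (j.choose k : ℝ) * δ ^ (j - k) * EM p (fun c => s c ^ k)| ≤
      (∑ k ∈ range j, (j.choose k : ℝ) * (C k + |gm k|)) / p := by
    refine (Finset.abs_sum_le_sum_abs _ _).trans ?_
    rw [Finset.sum_div]
    refine Finset.sum_le_sum fun k hk => ?_
    rw [Finset.mem_range] at hk
    have h1 := (hC k n d hn (by omega) p).1
    have h2 : |EM p (fun c => s c ^ k)| ≤ C k + |gm k| := by
      have h4 := abs_add_le (EM p (fun c => s c ^ k) - gm k) (gm k)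
      rw [sub_add_cancel] at h4
      linarith [h1]
    have h5 : δ ^ (j - k) ≤ 1 / p := by
      refine le_trans ?_ hδp
      calc δ ^ (j - k) ≤ δ ^ 1 := pow_le_pow_of_le_one hδ0 hδ1 (by omega)
        _ = δ := pow_one δ
    rw [abs_mul, abs_of_nonneg (by positivity : (0 : ℝ) ≤ (j.choose k : ℝ) * δ ^ (j - k))]
    calc (j.choose k : ℝ) * δ ^ (j - k) * |EM p (fun c => s c ^ k)|
        ≤ (j.choose k : ℝ) * (1 / p) * (C k + |gm k|) := by gcongr
      _ = _ := by ring
  have e3 : EM p (fun c => s c ^ j) + ∑ k ∈ range j, (j.choose k : ℝ) * δ ^ (j - k) *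
        EM p (fun c => s c ^ k) - gm j = (EM p (fun c => s c ^ j) - gm j) +
        ∑ k ∈ range j, (j.choose k : ℝ) * δ ^ (j - k) * EM p (fun c => s c ^ k) := by ring
  rw [e3, add_div]
  exact (abs_add_le _ _).trans (add_le_add b1 b2)

end Pool.Agent.U62.SH
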